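import Mathlib

/-!
# MP_ea41d9_gt: averaging over a group of linear isometries without compactness
-/

namespace Pool.Agent.H48.FXC

open Set

variable {W : Type*} [NormedAddCommGroup W] [InnerProductSpace ℝ W] [FiniteDimensional ℝ W]
  {G : Type*} [Group G]

/-- The point of minimal norm of a closed convex set is unique. -/
theorem min_unique {C : Set W} (hC : Convex ℝ C) {v v' : W} (hv : v ∈ C) (hv' : v' ∈ C)
    (h : ‖(0 : W) - v‖ = ⨅ w : C, ‖(0 : W) - w‖) (hn : inner ℝ v' v' = inner ℝ v v) : v' = v := by
  have h1 := (norm_eq_iInf_iff_real_inner_le_zero hC hv).1 h v' hv'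
  rw [zero_sub, inner_neg_left, inner_sub_right] at h1
  have h2 : inner ℝ (v' - v) (v' - v) ≤ 0 := by
    rw [inner_sub_left, inner_sub_right, inner_sub_right, real_inner_comm v v', hn]
    linarith only [h1]
  have h3 := real_inner_self_nonpos.1 h2
  exact sub_eq_zero.1 h3

/-- If the vectors fixed by the group are the multiples of the unit vector `u` then a linear
inequality for the orbit of `ξ` holds for the projection of `ξ` to the line of `u`. -/
theorem average (ρ : G → W →L[ℝ] W) (hmul : ∀ g h v, ρ (g * h) v = ρ g (ρ h v))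
    (hinner : ∀ g v w, inner ℝ (ρ g v) (ρ g w) = (inner ℝ v w : ℝ)) {u : W}
    (hu : inner ℝ u u = (1 : ℝ)) (hfu : ∀ g, ρ g u = u)
    (hfix : ∀ v, (∀ g, ρ g v = v) → ∃ r : ℝ, v = r • u) (ξ η : W) (A B C : ℝ)
    (h : ∀ g, A + B * inner ℝ (ρ g ξ) η ≤ C) :
    A + B * (inner ℝ ξ u * inner ℝ u η) ≤ C := by
  obtain ⟨O, hO⟩ : ∃ O : Set W, O = range fun g => ρ g ξ := ⟨_, rfl⟩
  obtain ⟨D, hD⟩ : ∃ D : Set W, D = closure (convexHull ℝ O) := ⟨_, rfl⟩
  have hOD : O ⊆ D := by
    rw [hD]
    exact (subset_convexHull ℝ O).trans subset_closure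
  have hconv : Convex ℝ D := by
    rw [hD]
    exact (convex_convexHull ℝ O).closure
  have hclosed : IsClosed D := by
    rw [hD]
    exact isClosed_closure
  have hmin : ∀ S : Set W, IsClosed S → Convex ℝ S → O ⊆ S → D ⊆ S := fun S h1 h2 h3 => by
    rw [hD]
    exact closure_minimal (convexHull_min h3 h2) h1
  have hne : D.Nonempty := ⟨ρ 1 ξ, hOD (by rw [hO]; exact ⟨1, rfl⟩)⟩
  have hcomplete : CompleteSpace W := FiniteDimensional.complete ℝ W
  obtain ⟨v, hv, hvmin⟩ := exists_norm_eq_iInf_of_complete_convex hne hclosed.isComplete hconv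
    (0 : W)
  have hinv : ∀ g, ρ g v ∈ D := by
    intro g
    have hsub : D ⊆ (ρ g) ⁻¹' D := by
      apply hmin
      · exact hclosed.preimage (ρ g).continuous
      · exact hconv.linear_preimage (ρ g : W →ₗ[ℝ] W)
      · intro w hw
        rw [hO] at hw
        obtain ⟨g', rfl⟩ := hw
        apply hOD
        rw [hO]
        exact ⟨g * g', hmul g g' ξ⟩
    exact hsub hv
  have hfixv : ∀ g, ρ g v = v := fun g => min_unique hconv hv (hinv g) hvmin (hinner g v v)
  obtain ⟨r, hr⟩ := hfix v hfixv
  have h1 : inner ℝ v u = (inner ℝ ξ u : ℝ) := by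
    have hsub : D ⊆ {w | inner ℝ w u = (inner ℝ ξ u : ℝ)} := by
      apply hmin
      · exact isClosed_eq (by fun_prop) continuous_const
      · intro a ha b hb s t hs ht hst
        rw [mem_ofPred_eq] at ha hb ⊢
        rw [inner_add_left, real_inner_smul_left, real_inner_smul_left, ha, hb, ← add_mul, hst,
          one_mul]
      · intro w hw
        rw [hO] at hw
        obtain ⟨g, rfl⟩ := hw
        have := hinner g ξ u
        rw [hfu g] at this
        exact this
    exact hsub hv
  have h2 : r = inner ℝ ξ u := by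
    rw [← h1, hr, real_inner_smul_left, hu, mul_one]
  have h3 : A + B * inner ℝ v η ≤ C := by
    have hsub : D ⊆ {w | A + B * inner ℝ w η ≤ C} := by
      apply hmin
      · exact isClosed_le (by fun_prop) continuous_const
      · intro a ha b hb s t hs ht hst
        rw [mem_ofPred_eq] at ha hb ⊢
        rw [inner_add_left, real_inner_smul_left, real_inner_smul_left]
        have e1 := mul_le_mul_of_nonneg_left ha hs
        have e2 := mul_le_mul_of_nonneg_left hb ht
        have e3 : A = s * A + t * A := by rw [← add_mul, hst, one_mul]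
        have e4 : C = s * C + t * C := by rw [← add_mul, hst, one_mul]
        linarith only [e1, e2, e3, e4]
      · intro w hw
        rw [hO] at hw
        obtain ⟨g, rfl⟩ := hw
        exact h g
    exact hsub hv
  rw [hr, real_inner_smul_left, h2] at h3
  exact h3

end Pool.Agent.H48.FXC
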