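import Pool.Agent.H48.FXC.K6

/-!
# MP_ea41d9_gt: the final statements for the kernel of a closed curve

`F` is a closed curve in a metric space and the kernel `cos (dist (F s) (F t))` has the properties
of the structure `Ker` (for some `ε > 0`).
-/

namespace Pool.Agent.H48.FXC

open Set

variable {M : Type*} [MetricSpace M] {F : ℝ → M} {L : ℝ}

/-- All the properties of the curve which are used. -/
structure CurveKer (F : ℝ → M) (L : ℝ) : Prop where
  diam : ∀ s t, dist (F s) (F t) ≤ Real.pi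
  periodic : ∀ t, F (t + L) = F t
  ker : ∃ m ε, Ker (fun s t => Real.cos (dist (F s) (F t))) m L ε

theorem CurveKer.pos (h : CurveKer F L) : 0 < L := by
  obtain ⟨m, ε, hK⟩ := h.ker
  exact hK.Lpos

theorem CurveKer.cont (h : CurveKer F L) :
    Continuous fun p : ℝ × ℝ => Real.cos (dist (F p.1) (F p.2)) := by
  obtain ⟨m, ε, hK⟩ := h.ker
  rw [Metric.continuous_iff]
  intro p δ hδ
  refine ⟨δ / 2, half_pos hδ, fun q hq => ?_⟩
  rw [Prod.dist_eq, max_lt_iff, Real.dist_eq, Real.dist_eq] at hq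
  have h1 := hK.lip p.1 q.2 p.2
  have h2 := hK.lip q.2 q.1 p.1
  rw [hK.symm q.2 q.1, hK.symm q.2 p.1] at h2
  rw [Real.dist_eq]
  have h3 : Real.cos (dist (F q.1) (F q.2)) - Real.cos (dist (F p.1) (F p.2)) =
      (Real.cos (dist (F q.1) (F q.2)) - Real.cos (dist (F p.1) (F q.2))) +
      (Real.cos (dist (F p.1) (F q.2)) - Real.cos (dist (F p.1) (F p.2))) := by ring
  rw [h3]
  calc _ ≤ |Real.cos (dist (F q.1) (F q.2)) - Real.cos (dist (F p.1) (F q.2))| +
        |Real.cos (dist (F p.1) (F q.2)) - Real.cos (dist (F p.1) (F p.2))| := abs_add_le _ _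
    _ ≤ |q.1 - p.1| + |q.2 - p.2| := add_le_add h2 h1
    _ < δ := by linarith only [hq.1, hq.2]

/-- Reduction of the parameters to the fundamental interval. -/
theorem CurveKer.reduce (h : CurveKer F L) (t : ℝ) : ∃ t' ∈ Ico 0 L, F t' = F t := by
  have hL := h.pos
  have hper : Function.Periodic F L := h.periodic
  obtain ⟨t', ht', hF⟩ := hper.exists_mem_Ico₀ hL t
  exact ⟨t', ht', hF.symm⟩

/-- A pair of points at maximal distance, moved to the positions `0` and `b`. -/
theorem CurveKer.maxPair (h : CurveKer F L) {p q : ℝ}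
    (hmax : ∀ s t, dist (F s) (F t) ≤ dist (F p) (F q)) (hD : Real.pi / 2 < dist (F p) (F q)) :
    ∃ b, 0 < b ∧ b < L ∧ F (p + b) = F q ∧
      (∀ s t, Real.cos (dist (F p) (F q)) ≤ Real.cos (dist (F s) (F t))) ∧
      Real.cos (dist (F p) (F q)) < 0 := by
  have hL := h.pos
  have hper : Function.Periodic (fun s => F (p + s)) L := fun s => by
    simp only
    rw [← add_assoc, h.periodic]
  obtain ⟨b, hb, hF⟩ := hper.exists_mem_Ico₀ hL (q - p)
  simp only [add_sub_cancel] at hF
  have hb0 : b ≠ 0 := fun h0 => by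
    rw [h0, add_zero] at hF
    rw [hF, dist_self] at hD
    linarith only [hD, Real.pi_pos]
  refine ⟨b, lt_of_le_of_ne hb.1 hb0.symm, hb.2, hF.symm, fun s t => ?_, ?_⟩
  · exact Real.cos_le_cos_of_nonneg_of_le_pi dist_nonneg (h.diam p q) (hmax s t)
  · exact Real.cos_neg_of_pi_div_two_lt_of_lt hD (by linarith only [h.diam p q, Real.pi_pos])

theorem CurveKer.bound_max (h : CurveKer F L) {p q : ℝ}
    (hmax : ∀ s t, dist (F s) (F t) ≤ dist (F p) (F q)) (hD : Real.pi / 2 < dist (F p) (F q)) :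
    L ≤ 2 * Real.sqrt (Real.pi ^ 2 + Real.log (-Real.cos (dist (F p) (F q))) ^ 2) := by
  obtain ⟨b, hb, hbL, hFb, hmin, hneg⟩ := h.maxPair hmax hD
  obtain ⟨m, ε, hK⟩ := h.ker
  have hval : Real.cos (dist (F (0 + p)) (F (b + p))) = Real.cos (dist (F p) (F q)) := by
    rw [zero_add, add_comm b p, hFb]
  have := (hK.shift p).bound_one hb hbL (fun s t => by
    rw [hval]
    exact hmin _ _) (by
    rw [hval]
    exact hneg)
  rw [hval] at this
  exact this

/-- The arcs of the curve inside the ball of radius `π / 2` around `F p`. -/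
theorem CurveKer.bound_arcs (h : CurveKer F L) {p q : ℝ}
    (hmax : ∀ s t, dist (F s) (F t) ≤ dist (F p) (F q)) (hD : Real.pi / 2 < dist (F p) (F q))
    {r₁ r₂ : ℝ} (h1 : 0 ≤ r₁) (h2 : 0 ≤ r₂) (hr1 : Real.pi / 2 ≤ dist (F p) (F (p + r₁)))
    (hr2 : Real.pi / 2 ≤ dist (F p) (F (p - r₂))) : L ≤ Real.pi + r₁ + r₂ := by
  obtain ⟨b, hb, hbL, hFb, hmin, hneg⟩ := h.maxPair hmax hD
  obtain ⟨m, ε, hK⟩ := h.ker
  have hval : Real.cos (dist (F (0 + p)) (F (b + p))) = Real.cos (dist (F p) (F q)) := by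
    rw [zero_add, add_comm b p, hFb]
  refine (hK.shift p).bound_two hb hbL (fun s t => by
    rw [hval]
    exact hmin _ _) (by
    rw [hval]
    exact hneg) h1 h2 ?_ ?_
  · rw [zero_add, add_comm r₁ p]
    exact Real.cos_nonpos_of_pi_div_two_le_of_le hr1
      (by linarith only [h.diam p (p + r₁), Real.pi_pos])
  · rw [zero_add, show -r₂ + p = p - r₂ by ring]
    exact Real.cos_nonpos_of_pi_div_two_le_of_le hr2
      (by linarith only [h.diam p (p - r₂), Real.pi_pos])

/-- A pair of points at maximal distance exists. -/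
theorem CurveKer.exists_max (h : CurveKer F L) :
    ∃ p q, ∀ s t, dist (F s) (F t) ≤ dist (F p) (F q) := by
  have hL := h.pos
  obtain ⟨x, hx, hmin⟩ := ((isCompact_Icc (a := (0 : ℝ)) (b := L)).prod
    (isCompact_Icc (a := (0 : ℝ)) (b := L))).exists_isMinOn
    ⟨(0, 0), ⟨le_refl _, hL.le⟩, ⟨le_refl _, hL.le⟩⟩ h.cont.continuousOn
  refine ⟨x.1, x.2, fun s t => ?_⟩
  obtain ⟨s', hs', hFs⟩ := h.reduce s
  obtain ⟨t', ht', hFt⟩ := h.reduce t
  have h1 := hmin (show (s', t') ∈ Icc 0 L ×ˢ Icc 0 L from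
    ⟨⟨hs'.1, hs'.2.le⟩, ⟨ht'.1, ht'.2.le⟩⟩)
  simp only [mem_ofPred_eq] at h1
  rw [hFs, hFt] at h1
  by_contra hc
  exact absurd h1 (not_le.2 (Real.cos_lt_cos_of_nonneg_of_le_pi dist_nonneg (h.diam s t)
    (lt_of_not_ge hc)))

/-- The bound for every pair of points at distance larger than `π / 2`. -/
theorem CurveKer.bound_pair (h : CurveKer F L) {s t : ℝ} (hst : Real.pi / 2 < dist (F s) (F t)) :
    L ≤ 2 * Real.sqrt (Real.pi ^ 2 + Real.log (-Real.cos (dist (F s) (F t))) ^ 2) := by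
  obtain ⟨p, q, hmax⟩ := h.exists_max
  have hD : Real.pi / 2 < dist (F p) (F q) := hst.trans_le (hmax s t)
  have h1 := h.bound_max hmax hD
  have h2 : Real.cos (dist (F p) (F q)) ≤ Real.cos (dist (F s) (F t)) :=
    Real.cos_le_cos_of_nonneg_of_le_pi dist_nonneg (h.diam p q) (hmax s t)
  have h3 : Real.cos (dist (F s) (F t)) < 0 :=
    Real.cos_neg_of_pi_div_two_lt_of_lt hst (by linarith only [h.diam s t, Real.pi_pos])
  have h4 : Real.log (-Real.cos (dist (F s) (F t))) ≤
      Real.log (-Real.cos (dist (F p) (F q))) := Real.log_le_log (by linarith only [h3])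
        (by linarith only [h2])
  have h5 : Real.log (-Real.cos (dist (F p) (F q))) ≤ 0 :=
    Real.log_nonpos (by linarith only [h2, h3])
      (by linarith only [Real.neg_one_le_cos (dist (F p) (F q))])
  have h6 : Real.log (-Real.cos (dist (F p) (F q))) ^ 2 ≤
      Real.log (-Real.cos (dist (F s) (F t))) ^ 2 := by nlinarith only [h4, h5]
  have h7 := Real.sqrt_le_sqrt (add_le_add_right h6 (Real.pi ^ 2))
  linarith only [h1, h7]

/-- If arcs longer than `π / 2` are minimizing then the length is at most `2 π`. -/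
theorem CurveKer.bound_inj (h : CurveKer F L) {l : ℝ} (hl : Real.pi / 2 < l)
    (hmin : ∀ s t, |s - t| ≤ l → dist (F s) (F t) = |s - t|) : L ≤ 2 * Real.pi := by
  obtain ⟨p, q, hmax⟩ := h.exists_max
  have hpi := Real.pi_pos
  have hl0 : 0 < l := by linarith only [hl, hpi]
  have hD : Real.pi / 2 < dist (F p) (F q) := by
    have h1 := hmax (0 + l) 0
    rw [hmin (0 + l) 0 (by simp [abs_of_pos hl0])] at h1
    simp only [zero_add, sub_zero, abs_of_pos hl0] at h1
    linarith only [h1, hl]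
  have h1 : dist (F p) (F (p + Real.pi / 2)) = Real.pi / 2 := by
    rw [hmin _ _ (by
      rw [sub_add_cancel_left, abs_neg, abs_of_pos (by linarith only [hpi])]
      exact hl.le), sub_add_cancel_left, abs_neg, abs_of_pos (by linarith only [hpi])]
  have h2 : dist (F p) (F (p - Real.pi / 2)) = Real.pi / 2 := by
    rw [hmin _ _ (by
      rw [sub_sub_cancel, abs_of_pos (by linarith only [hpi])]
      exact hl.le), sub_sub_cancel, abs_of_pos (by linarith only [hpi])]
  have := h.bound_arcs hmax hD (r₁ := Real.pi / 2) (r₂ := Real.pi / 2)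
    (by linarith only [hpi]) (by linarith only [hpi]) h1.ge h2.ge
  linarith only [this]

end Pool.Agent.H48.FXC
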