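import Mathlib

/-!
# MP_ea41d9_gt: the cosine kernel of the fixed circle, monotonicity
-/

namespace Pool.Agent.H48.FXC

open Set

/-- The properties of the kernel `K s t = cos (dist (F s) (F t))` which are used; `m z x` is the
derivative at `z` in the direction of the curve. -/
structure Ker (K : ℝ → ℝ → ℝ) (m : ℝ → ℝ → ℝ) (L ε : ℝ) : Prop where
  Lpos : 0 < L
  epos : 0 < ε
  symm : ∀ s t, K s t = K t s
  per : ∀ s t, K s (t + L) = K s t
  loc : ∀ s t, |s - t| ≤ ε → K s t = Real.cos (s - t)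
  one : ∀ s t, K s t = 1 → ∃ k : ℤ, s - t = k * L
  lip : ∀ s t t', |K s t - K s t'| ≤ |t - t'|
  supp : ∀ x z h, |h| ≤ ε → K x z * Real.cos h + m z x * Real.sin h ≤ K x (z + h)
  hinge : ∀ x y z, K x z * K y z + m z x * m z y ≤ K x y

variable {K m : ℝ → ℝ → ℝ} {L ε : ℝ}

theorem Ker.diag (hK : Ker K m L ε) (s : ℝ) : K s s = 1 := by
  rw [hK.loc s s (by simpa using hK.epos.le)]
  simp

theorem Ker.sq_le (hK : Ker K m L ε) (s t : ℝ) : K s t ^ 2 + m t s ^ 2 ≤ 1 := by
  have h := hK.hinge s s t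
  rw [hK.diag s] at h
  nlinarith only [h]

theorem Ker.le_one (hK : Ker K m L ε) (s t : ℝ) : K s t ≤ 1 := by
  nlinarith only [hK.sq_le s t, sq_nonneg (m t s), sq_nonneg (K s t - 1), sq_nonneg (K s t + 1)]

theorem Ker.neg_one_le (hK : Ker K m L ε) (s t : ℝ) : -1 ≤ K s t := by
  nlinarith only [hK.sq_le s t, sq_nonneg (m t s), sq_nonneg (K s t - 1), sq_nonneg (K s t + 1)]

theorem Ker.cont (hK : Ker K m L ε) (s : ℝ) : Continuous (K s) := by
  have h : LipschitzWith 1 (K s) := LipschitzWith.of_dist_le_mul fun t t' => by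
    rw [Real.dist_eq, Real.dist_eq]
    simpa using hK.lip s t t'
  exact h.continuous

theorem Ker.shift (hK : Ker K m L ε) (a : ℝ) :
    Ker (fun s t => K (s + a) (t + a)) (fun z x => m (z + a) (x + a)) L ε where
  Lpos := hK.Lpos
  epos := hK.epos
  symm := fun s t => hK.symm _ _
  per := fun s t => by
    have h := hK.per (s + a) (t + a)
    rw [← h]
    ring_nf
  loc := fun s t h => by
    have h' := hK.loc (s + a) (t + a) (by rwa [show s + a - (t + a) = s - t by ring])
    rw [h']
    ring_nf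
  one := fun s t h => by
    obtain ⟨k, hk⟩ := hK.one _ _ h
    exact ⟨k, by linarith only [hk]⟩
  lip := fun s t t' => by
    have h := hK.lip (s + a) (t + a) (t' + a)
    rwa [show t + a - (t' + a) = t - t' by ring] at h
  supp := fun x z h hh => by
    have h' := hK.supp (x + a) (z + a) h hh
    rwa [show z + a + h = z + h + a by ring] at h'
  hinge := fun x y z => hK.hinge _ _ _

theorem Ker.neg (hK : Ker K m L ε) :
    Ker (fun s t => K (-s) (-t)) (fun z x => -m (-z) (-x)) L ε where
  Lpos := hK.Lpos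
  epos := hK.epos
  symm := fun s t => hK.symm _ _
  per := fun s t => by
    have h := hK.per (-s) (-(t + L))
    rw [← h]
    ring_nf
  loc := fun s t h => by
    have h' := hK.loc (-s) (-t) (by
      rw [show -s - -t = -(s - t) by ring, abs_neg]
      exact h)
    rw [h', show -s - -t = -(s - t) by ring, Real.cos_neg]
  one := fun s t h => by
    obtain ⟨k, hk⟩ := hK.one _ _ h
    exact ⟨-k, by push_cast; linarith only [hk]⟩
  lip := fun s t t' => by
    have h := hK.lip (-s) (-t) (-t')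
    rwa [show -t - -t' = -(t - t') by ring, abs_neg] at h
  supp := fun x z h hh => by
    have h' := hK.supp (-x) (-z) (-h) (by rwa [abs_neg])
    rw [Real.cos_neg, Real.sin_neg, show -z + -h = -(z + h) by ring] at h'
    linarith only [h']
  hinge := fun x y z => by
    have h' := hK.hinge (-x) (-y) (-z)
    linarith only [h']

theorem Ker.refl (hK : Ker K m L ε) (b : ℝ) :
    Ker (fun s t => K (b - s) (b - t)) (fun z x => -m (b - z) (b - x)) L ε := by
  have h := (hK.shift b).neg
  have e1 : (fun s t => K (b - s) (b - t)) = fun s t => K (-s + b) (-t + b) := by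
    funext s t
    rw [neg_add_eq_sub, neg_add_eq_sub]
  have e2 : (fun z x => -m (b - z) (b - x)) = fun z x => -m (-z + b) (-x + b) := by
    funext z x
    rw [neg_add_eq_sub, neg_add_eq_sub]
  rw [e1, e2]
  exact h

/-- If `m sin h ≤ C (1 - cos h)` for all small `h` of both signs then `m = 0`. -/
theorem eq_zero_of_small {C m δ : ℝ} (hδ : 0 < δ)
    (h : ∀ x, |x| < δ → m * Real.sin x ≤ C * (1 - Real.cos x)) : m = 0 := by
  have hd : HasDerivAt (fun x => C * (1 - Real.cos x) - m * Real.sin x)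
      (C * (0 - -Real.sin 0) - m * Real.cos 0) 0 :=
    (((hasDerivAt_const (0 : ℝ) (1 : ℝ)).sub (Real.hasDerivAt_cos 0)).const_mul C).sub
      ((Real.hasDerivAt_sin 0).const_mul m)
  have hm : IsLocalMin (fun x => C * (1 - Real.cos x) - m * Real.sin x) 0 := by
    have : ∀ᶠ x in nhds (0 : ℝ), |x| < δ := by
      have := Metric.ball_mem_nhds (0 : ℝ) hδ
      filter_upwards [this] with x hx
      simpa [Real.dist_eq] using hx
    filter_upwards [this] with x hx
    have := h x hx
    simp only [Real.cos_zero, sub_self, mul_zero, Real.sin_zero]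
    linarith only [this]
  have h0 := hm.hasDerivAt_eq_zero hd
  simpa using h0

/-- At a local maximum of `K x` the number `m z x` vanishes. -/
theorem Ker.m_eq_zero (hK : Ker K m L ε) {x z δ : ℝ} (hδ : 0 < δ)
    (h : ∀ t, |t - z| < δ → K x t ≤ K x z) : m z x = 0 := by
  apply eq_zero_of_small (C := K x z) (lt_min hδ hK.epos)
  intro y hy
  have h1 := hK.supp x z y (hy.trans_le (min_le_right _ _)).le
  have h2 := h (z + y) (by simpa using hy.trans_le (min_le_left _ _))
  linarith only [h1, h2]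

/-- A point strictly between `0` and `b` which is a local maximum of `K 0` does not exist. -/
theorem Ker.no_max (hK : Ker K m L ε) {b : ℝ} (hbL : b < L)
    (hmin : ∀ s t, K 0 b ≤ K s t) (hneg : K 0 b < 0) {z δ : ℝ} (hδ : 0 < δ) (hz0 : 0 < z)
    (hzb : z < b) (hlt : K 0 b < K 0 z) (h : ∀ t, |t - z| < δ → K 0 t ≤ K 0 z) : False := by
  have hm := hK.m_eq_zero hδ h
  have hh := hK.hinge 0 b z
  rw [hm, zero_mul, add_zero] at hh
  have hQ1 := hK.le_one b z
  have hQ2 := hmin b z
  have hP1 := hK.le_one 0 z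
  rcases le_or_gt (K 0 z) 0 with h0 | h0
  · nlinarith only [hh, h0, hQ1, hlt, mul_nonneg (neg_nonneg.2 h0) (sub_nonneg.2 hQ1)]
  · have h1 : 1 ≤ K 0 z := by
      by_contra hc
      have hc' : K 0 z < 1 := lt_of_not_ge hc
      nlinarith only [mul_nonneg h0.le (sub_nonneg.2 hQ2), hh,
        mul_pos (neg_pos.2 hneg) (sub_pos.2 hc')]
    obtain ⟨k, hk⟩ := hK.one 0 z (le_antisymm hP1 h1)
    have hL := hK.Lpos
    have hk1 : (k : ℝ) < 0 := by
      by_contra hc
      have hc' : (0 : ℝ) ≤ k := le_of_not_gt hc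
      nlinarith only [hk, hz0, mul_nonneg hc' hL.le]
    have hk2 : (-1 : ℝ) < k := by
      by_contra hc
      have hc' : (k : ℝ) ≤ -1 := le_of_not_gt hc
      nlinarith only [hk, hzb, hbL, mul_nonneg (sub_nonneg.2 hc') hL.le]
    have hk3 : (k : ℤ) < 0 := by exact_mod_cast hk1
    have hk4 : (-1 : ℤ) < k := by exact_mod_cast hk2
    omega

theorem Ker.anti (hK : Ker K m L ε) {b : ℝ} (hbL : b < L)
    (hmin : ∀ s t, K 0 b ≤ K s t) (hneg : K 0 b < 0) : AntitoneOn (K 0) (Icc 0 b) := by
  intro t1 h1 t2 h2 h12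
  by_contra hlt
  have hlt' : K 0 t1 < K 0 t2 := lt_of_not_ge hlt
  obtain ⟨z, hz, hmax⟩ := (isCompact_Icc (a := t1) (b := b)).exists_isMaxOn
    ⟨t2, h12, h2.2⟩ (hK.cont 0).continuousOn
  have hz2 : K 0 t2 ≤ K 0 z := hmax ⟨h12, h2.2⟩
  have hz1 : z ≠ t1 := fun h => by
    rw [h] at hz2
    exact absurd hz2 (not_le.2 hlt')
  have hzb : z ≠ b := fun h => by
    have := hmin 0 t1
    rw [h] at hz2
    linarith only [this, hz2, hlt']
  have hz1' : t1 < z := lt_of_le_of_ne hz.1 (Ne.symm hz1)
  have hzb' : z < b := lt_of_le_of_ne hz.2 hzb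
  refine hK.no_max hbL hmin hneg (δ := min (z - t1) (b - z))
    (lt_min (sub_pos.2 hz1') (sub_pos.2 hzb')) (h1.1.trans_lt hz1') hzb' ?_ ?_
  · have := hmin 0 t1
    linarith only [this, hz2, hlt']
  · intro t ht
    have ht1 := (ht.trans_le (min_le_left _ _))
    have ht2 := (ht.trans_le (min_le_right _ _))
    rw [abs_lt] at ht1 ht2
    exact hmax ⟨by linarith only [ht1.1], by linarith only [ht2.2]⟩

theorem Ker.mono (hK : Ker K m L ε) {b : ℝ} (hbL : b < L)
    (hmin : ∀ s t, K 0 b ≤ K s t) (hneg : K 0 b < 0) : MonotoneOn (K b) (Icc 0 b) := by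
  have h := (hK.refl b).anti (b := b) hbL (fun s t => by
    simp only [sub_zero, sub_self]
    rw [hK.symm b 0]
    exact hmin _ _) (by
    simp only [sub_zero, sub_self]
    rw [hK.symm b 0]
    exact hneg)
  intro t1 h1 t2 h2 h12
  have h' := h (a := b - t2) ⟨sub_nonneg.2 h2.2, by linarith only [h2.1]⟩ (b := b - t1)
    ⟨sub_nonneg.2 h1.2, by linarith only [h1.1]⟩ (by linarith only [h12])
  simpa using h'

end Pool.Agent.H48.FXC
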