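import Mathlib

/-!
# MP_ea41d9_gt: a Sturm comparison lemma for supported functions
-/

namespace Pool.Agent.H48.FXC

open Set

/-- A positive function which is locally supported from above by sine waves of frequency one lives
on an interval of length at most `π`. -/
theorem sturm {f : ℝ → ℝ} {x y : ℝ} (hf : Continuous f) (hpos : ∀ t ∈ Ioo x y, 0 < f t)
    (hs : ∀ z ∈ Ioo x y, ∃ m δ : ℝ, 0 < δ ∧
      ∀ h, |h| < δ → f (z + h) ≤ f z * Real.cos h + m * Real.sin h) :
    y - x ≤ Real.pi := by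
  by_contra hc
  have hc' : Real.pi < y - x := lt_of_not_ge hc
  have hpi := Real.pi_pos
  obtain ⟨x', hx', hy'⟩ : ∃ x', x < x' ∧ x' + Real.pi < y :=
    ⟨x + (y - x - Real.pi) / 2, by linarith only [hc'], by linarith only [hc']⟩
  have hsub : ∀ t ∈ Icc x' (x' + Real.pi), t ∈ Ioo x y := fun t ht =>
    ⟨hx'.trans_le ht.1, ht.2.trans_lt hy'⟩
  have hsin0 : ∀ t ∈ Icc x' (x' + Real.pi), 0 ≤ Real.sin (t - x') := fun t ht =>
    Real.sin_nonneg_of_nonneg_of_le_pi (sub_nonneg.2 ht.1) (by linarith only [ht.2])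
  obtain ⟨t1, ht1, hmin1⟩ := (isCompact_Icc (a := x') (b := x' + Real.pi)).exists_isMinOn
    ⟨x', le_refl _, by linarith only [hpi]⟩ hf.continuousOn
  have hμ : 0 < f t1 := hpos t1 (hsub t1 ht1)
  have hμle : ∀ t ∈ Icc x' (x' + Real.pi), f t1 ≤ f t := fun t ht => hmin1 ht
  have ht0 : x' + Real.pi / 2 ∈ Icc x' (x' + Real.pi) :=
    ⟨by linarith only [hpi], by linarith only [hpi]⟩
  have hr0 : f t1 ≤ f (x' + Real.pi / 2) := hμle _ ht0
  have hr0' : 0 < f (x' + Real.pi / 2) := hμ.trans_le hr0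
  have hs1 : 0 < f t1 / f (x' + Real.pi / 2) := div_pos hμ hr0'
  have hs1' : f t1 / f (x' + Real.pi / 2) ≤ 1 := (div_le_one hr0').2 hr0
  have hcomp : IsCompact {t | t ∈ Icc x' (x' + Real.pi) ∧
      f t1 / f (x' + Real.pi / 2) ≤ Real.sin (t - x')} := by
    apply (isCompact_Icc (a := x') (b := x' + Real.pi)).inter_right
    exact isClosed_le continuous_const (Real.continuous_sin.comp (continuous_id.sub
      continuous_const))
  have hne : (x' + Real.pi / 2) ∈ {t | t ∈ Icc x' (x' + Real.pi) ∧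
      f t1 / f (x' + Real.pi / 2) ≤ Real.sin (t - x')} := by
    refine ⟨ht0, ?_⟩
    rw [add_sub_cancel_left, Real.sin_pi_div_two]
    exact hs1'
  obtain ⟨z0, hz0, hmin0⟩ := hcomp.exists_isMinOn ⟨_, hne⟩
    (f := fun t => f t / Real.sin (t - x'))
    (hf.continuousOn.div (Real.continuous_sin.comp (continuous_id.sub
      continuous_const)).continuousOn (fun t ht => (hs1.trans_le ht.2).ne'))
  have hz0s : 0 < Real.sin (z0 - x') := hs1.trans_le hz0.2
  obtain ⟨lam, hlam⟩ : ∃ lam, lam = f z0 / Real.sin (z0 - x') := ⟨_, rfl⟩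
  have hlam0 : 0 < lam := hlam ▸ div_pos (hpos z0 (hsub z0 hz0.1)) hz0s
  have hlamr : lam ≤ f (x' + Real.pi / 2) := by
    have := hmin0 hne
    simp only [mem_ofPred_eq, add_sub_cancel_left, Real.sin_pi_div_two, div_one] at this
    rw [hlam]
    exact this
  have hge : ∀ t ∈ Icc x' (x' + Real.pi), lam * Real.sin (t - x') ≤ f t := by
    intro t ht
    rcases le_or_gt (f t1 / f (x' + Real.pi / 2)) (Real.sin (t - x')) with h | h
    · have := hmin0 (show t ∈ {t | t ∈ Icc x' (x' + Real.pi) ∧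
        f t1 / f (x' + Real.pi / 2) ≤ Real.sin (t - x')} from ⟨ht, h⟩)
      simp only [mem_ofPred_eq] at this
      rw [← hlam] at this
      exact (le_div_iff₀ (hs1.trans_le h)).1 this
    · calc lam * Real.sin (t - x') ≤ f (x' + Real.pi / 2) * (f t1 / f (x' + Real.pi / 2)) :=
            mul_le_mul hlamr h.le (hsin0 t ht) hr0'.le
        _ = f t1 := mul_div_cancel₀ _ hr0'.ne'
        _ ≤ f t := hμle t ht
  have hZc : IsCompact {t | t ∈ Icc x' (x' + Real.pi) ∧ f t = lam * Real.sin (t - x')} := by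
    apply (isCompact_Icc (a := x') (b := x' + Real.pi)).inter_right
    exact isClosed_eq hf (continuous_const.mul (Real.continuous_sin.comp (continuous_id.sub
      continuous_const)))
  have hZn : {t | t ∈ Icc x' (x' + Real.pi) ∧ f t = lam * Real.sin (t - x')}.Nonempty := by
    refine ⟨z0, hz0.1, ?_⟩
    rw [hlam]
    field_simp
  obtain ⟨z, hz, hzle⟩ := hZc.exists_isLeast hZn
  have hzx : x' < z := by
    refine lt_of_le_of_ne hz.1.1 (fun h => ?_)
    have h1 := hz.2
    rw [← h, sub_self, Real.sin_zero, mul_zero] at h1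
    exact absurd h1 (hpos x' (hsub x' ⟨le_refl _, by linarith only [hpi]⟩)).ne'
  have hzy : z < x' + Real.pi := by
    refine lt_of_le_of_ne hz.1.2 (fun h => ?_)
    have h1 := hz.2
    rw [h, add_sub_cancel_left, Real.sin_pi, mul_zero] at h1
    exact absurd h1 (hpos (x' + Real.pi) (hsub _ ⟨by linarith only [hpi], le_refl _⟩)).ne'
  obtain ⟨m, δ, hδ, hm⟩ := hs z (hsub z hz.1)
  have hkey : ∀ h, |h| < min δ (min (z - x') (x' + Real.pi - z)) →
      0 ≤ f (z + h) - lam * Real.sin (z + h - x') ∧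
      f (z + h) - lam * Real.sin (z + h - x') ≤ (m - lam * Real.cos (z - x')) * Real.sin h := by
    intro h hh
    have h1 := hh.trans_le (min_le_left _ _)
    have h2 := (hh.trans_le (min_le_right _ _)).trans_le (min_le_left _ _)
    have h3 := (hh.trans_le (min_le_right _ _)).trans_le (min_le_right _ _)
    rw [abs_lt] at h2 h3
    refine ⟨sub_nonneg.2 (hge _ ⟨by linarith only [h2.1], by linarith only [h3.2]⟩), ?_⟩
    have h4 := hm h h1
    rw [hz.2] at h4
    rw [show z + h - x' = (z - x') + h by ring, Real.sin_add]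
    linarith only [h4]
  have hδ' : 0 < min δ (min (z - x') (x' + Real.pi - z)) :=
    lt_min hδ (lt_min (sub_pos.2 hzx) (sub_pos.2 hzy))
  obtain ⟨h0, hh0, hh0d⟩ : ∃ h0 : ℝ, 0 < h0 ∧ h0 < min 1
      (min δ (min (z - x') (x' + Real.pi - z))) := exists_between (lt_min one_pos hδ')
  have hh1 : h0 < 1 := hh0d.trans_le (min_le_left _ _)
  have hh2 : h0 < min δ (min (z - x') (x' + Real.pi - z)) := hh0d.trans_le (min_le_right _ _)
  have hsinpos : 0 < Real.sin h0 := Real.sin_pos_of_pos_of_lt_pi hh0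
    (by linarith only [hh1, Real.pi_gt_three])
  have hp := hkey h0 (by rwa [abs_of_pos hh0])
  have hn := hkey (-h0) (by rwa [abs_neg, abs_of_pos hh0])
  rw [Real.sin_neg] at hn
  have hM1 : 0 ≤ (m - lam * Real.cos (z - x')) * Real.sin h0 := hp.1.trans hp.2
  have hM2 : 0 ≤ (m - lam * Real.cos (z - x')) * -Real.sin h0 := hn.1.trans hn.2
  have heq : f (z + -h0) = lam * Real.sin (z + -h0 - x') := by
    linarith only [hn.1, hn.2, hM1, hM2]
  have hmem : z + -h0 ∈ {t | t ∈ Icc x' (x' + Real.pi) ∧ f t = lam * Real.sin (t - x')} := by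
    refine ⟨⟨?_, ?_⟩, heq⟩
    · have := hh2.trans_le ((min_le_right _ _).trans (min_le_left _ _))
      linarith only [this]
    · linarith only [hz.1.2, hh0]
  have := hzle hmem
  linarith only [this, hh0]

end Pool.Agent.H48.FXC
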