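import Pool.Agent.H48.FXC.K1
import Pool.Agent.H48.FXC.STU

/-!
# MP_ea41d9_gt: the bound by the arcs inside the ball of radius `π / 2`
-/

namespace Pool.Agent.H48.FXC

open Set

variable {K m : ℝ → ℝ → ℝ} {L ε : ℝ}

/-- Behind a point with nonpositive value the kernel is negative up to `b`. -/
theorem Ker.neg_of_le (hK : Ker K m L ε) {b : ℝ} (hbL : b < L)
    (hmin : ∀ s t, K 0 b ≤ K s t) (hneg : K 0 b < 0) {r : ℝ} (hr : 0 ≤ r) (hKr : K 0 r ≤ 0) :
    ∀ t ∈ Ioc r b, K 0 t < 0 := by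
  intro t ht
  have hanti := hK.anti hbL hmin hneg
  have ht0 : t ∈ Icc 0 b := ⟨hr.trans ht.1.le, ht.2⟩
  have hr0 : r ∈ Icc 0 b := ⟨hr, ht.1.le.trans ht.2⟩
  have h1 : K 0 t ≤ 0 := (hanti hr0 ht0 ht.1.le).trans hKr
  refine lt_of_le_of_ne h1 (fun h0 => ?_)
  have htb : t < b := by
    refine lt_of_le_of_ne ht.2 (fun h => ?_)
    rw [h] at h0
    exact absurd h0 hneg.ne
  have hz : ∀ s ∈ Icc r t, K 0 s = 0 := by
    intro s hs
    have hs0 : s ∈ Icc 0 b := ⟨hr.trans hs.1, hs.2.trans ht.2⟩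
    have e1 := hanti hr0 hs0 hs.1
    have e2 := hanti hs0 ht0 hs.2
    rw [h0] at e2
    exact le_antisymm (e1.trans hKr) e2
  have hzm : K 0 ((r + t) / 2) = 0 := hz _ ⟨by linarith only [ht.1], by linarith only [ht.1]⟩
  refine hK.no_max hbL hmin hneg (z := (r + t) / 2) (δ := (t - r) / 2)
    (by linarith only [ht.1]) (by linarith only [ht.1, hr]) (by linarith only [ht.1, ht.2, htb])
    (by rw [hzm]; exact hneg) ?_
  intro s hs
  rw [abs_lt] at hs
  rw [hz s ⟨by linarith only [hs.1], by linarith only [hs.2]⟩, hzm]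

/-- One may replace `r` by a smaller number below `b`. -/
theorem Ker.exists_lt (hK : Ker K m L ε) {b : ℝ} (hb : 0 < b) (hneg : K 0 b < 0) {r : ℝ}
    (hr : 0 ≤ r) (hKr : K 0 r ≤ 0) : ∃ r', 0 ≤ r' ∧ r' ≤ r ∧ r' < b ∧ K 0 r' ≤ 0 := by
  rcases lt_or_ge r b with h | h
  · exact ⟨r, hr, le_refl _, h, hKr⟩
  · have hopen : IsOpen {t | K 0 t < 0} := isOpen_lt (hK.cont 0) continuous_const
    obtain ⟨δ, hδ, hball⟩ := Metric.isOpen_iff.1 hopen b hneg
    refine ⟨max 0 (b - δ / 2), le_max_left _ _, ?_, ?_, ?_⟩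
    · exact max_le hr (by linarith only [h, hδ])
    · exact max_lt hb (by linarith only [hδ])
    · have : max 0 (b - δ / 2) ∈ Metric.ball b δ := by
        rw [Metric.mem_ball, Real.dist_eq, abs_lt]
        constructor
        · linarith only [le_max_right 0 (b - δ / 2), hδ]
        · have := max_lt hb (show b - δ / 2 < b by linarith only [hδ])
          linarith only [this, hδ]
      exact (le_of_lt (hball this))

/-- The part of the circle outside the ball of radius `π / 2` around a point realizing the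
diameter has length at most `π`. -/
theorem Ker.bound_two (hK : Ker K m L ε) {b : ℝ} (hb : 0 < b) (hbL : b < L)
    (hmin : ∀ s t, K 0 b ≤ K s t) (hneg : K 0 b < 0) {r1 r2 : ℝ} (h1 : 0 ≤ r1) (h2 : 0 ≤ r2)
    (hr1 : K 0 r1 ≤ 0) (hr2 : K 0 (-r2) ≤ 0) : L ≤ Real.pi + r1 + r2 := by
  obtain ⟨s1, hs1, hs1r, hs1b, hKs1⟩ := hK.exists_lt hb hneg h1 hr1
  have hK' := hK.neg
  have hb' : 0 < L - b := sub_pos.2 hbL
  have hbL' : L - b < L := by linarith only [hb]
  have hval : K (-0) (-(L - b)) = K 0 b := by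
    have := hK.per 0 (-(L - b))
    rw [show -(L - b) + L = b by ring] at this
    rw [neg_zero, this]
  have hneg' : K (-0) (-(L - b)) < 0 := by rw [hval]; exact hneg
  have hmin' : ∀ s t, K (-0) (-(L - b)) ≤ K (-s) (-t) := fun s t => by
    rw [hval]
    exact hmin _ _
  obtain ⟨s2, hs2, hs2r, hs2b, hKs2⟩ := hK'.exists_lt (r := r2) hb' hneg' h2
    (by simpa using hr2)
  have hn1 := hK.neg_of_le hbL hmin hneg hs1 hKs1
  have hn2 := hK'.neg_of_le hbL' hmin' hneg' hs2 hKs2
  have hneg2 : ∀ t ∈ Ioo s1 (L - s2), 0 < -K 0 t := by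
    intro t ht
    rcases le_or_gt t b with h | h
    · exact neg_pos.2 (hn1 t ⟨ht.1, h⟩)
    · have h3 := hn2 (L - t) ⟨by linarith only [ht.2], by linarith only [h]⟩
      have h4 := hK.per 0 (-(L - t))
      rw [show -(L - t) + L = t by ring] at h4
      simp only [neg_zero] at h3
      rw [← h4] at h3
      exact neg_pos.2 h3
  have := sturm (f := fun t => -K 0 t) (x := s1) (y := L - s2) (hK.cont 0).neg hneg2
    (fun z _ => ⟨-m z 0, ε, hK.epos, fun h hh => by
      have := hK.supp 0 z h hh.le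
      linarith only [this]⟩)
  linarith only [this, hs1r, hs2r]

end Pool.Agent.H48.FXC
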