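import Mathlib

/-!
# MP_ea41d9_gt: a differential inequality for two functions on an interval
-/

namespace Pool.Agent.H48.FXC

open Set MeasureTheory

theorem ac_lower {f : ℝ → ℝ} {x y C : ℝ} (hxy : x ≤ y)
    (hf : AbsolutelyContinuousOnInterval f x y)
    (h : ∀ᵐ t, t ∈ Ioo x y → C ≤ deriv f t) : C * (y - x) ≤ f y - f x := by
  have h1 : ∫ _ in x..y, C = C * (y - x) := by
    rw [intervalIntegral.integral_const, smul_eq_mul, mul_comm]
  rw [← hf.integral_deriv_eq_sub, ← h1]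
  apply intervalIntegral.integral_mono_ae_restrict hxy intervalIntegrable_const
    hf.intervalIntegrable_deriv
  have h2 : ∀ᵐ t ∂(volume.restrict (Ioo x y)), C ≤ deriv f t :=
    (ae_restrict_iff' measurableSet_Ioo).2 h
  have h3 : volume.restrict (Ioo x y) = volume.restrict (Icc x y) :=
    Measure.restrict_congr_set Ioo_ae_eq_Icc
  rw [h3] at h2
  exact h2

theorem ac_comp {f g : ℝ → ℝ} {x y : ℝ} {C : NNReal} {s : Set ℝ} (hg : LipschitzOnWith C g s)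
    (hfs : ∀ t ∈ uIcc x y, f t ∈ s) (hf : AbsolutelyContinuousOnInterval f x y) :
    AbsolutelyContinuousOnInterval (fun t => g (f t)) x y := by
  rw [absolutelyContinuousOnInterval_iff] at hf ⊢
  intro e he
  obtain ⟨d, hd, h⟩ := hf (e / (C + 1)) (by positivity)
  refine ⟨d, hd, fun E hE hs => ?_⟩
  have h1 := h E hE hs
  have h2 : ∀ i ∈ Finset.range E.1, dist (g (f (E.2 i).1)) (g (f (E.2 i).2)) ≤
      C * dist (f (E.2 i).1) (f (E.2 i).2) := fun i hi =>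
    hg.dist_le_mul _ (hfs _ (hE.1 i hi).1) _ (hfs _ (hE.1 i hi).2)
  have h3 : 0 ≤ ∑ i ∈ Finset.range E.1, dist (f (E.2 i).1) (f (E.2 i).2) :=
    Finset.sum_nonneg fun _ _ => dist_nonneg
  calc ∑ i ∈ Finset.range E.1, dist (g (f (E.2 i).1)) (g (f (E.2 i).2))
      ≤ ∑ i ∈ Finset.range E.1, C * dist (f (E.2 i).1) (f (E.2 i).2) := Finset.sum_le_sum h2
    _ = C * ∑ i ∈ Finset.range E.1, dist (f (E.2 i).1) (f (E.2 i).2) :=
        (Finset.mul_sum _ _ _).symm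
    _ ≤ (C + 1) * ∑ i ∈ Finset.range E.1, dist (f (E.2 i).1) (f (E.2 i).2) := by
        nlinarith only [h3]
    _ < (C + 1) * (e / (C + 1)) := mul_lt_mul_of_pos_left h1 (by positivity)
    _ = e := mul_div_cancel₀ _ (by positivity)

theorem cosh_cos {k t : ℝ} (hk : 0 ≤ k) (hk1 : k < 1) (ht : 0 < t) (ht1 : t < 1)
    (ht2 : t < 1 - k ^ 2) : Real.cos t * Real.cosh (k * t) < 1 := by
  have h1 := (abs_le.1 (Real.cos_bound (abs_le.2 ⟨by linarith only [ht], ht1.le⟩))).2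
  rw [abs_of_pos ht] at h1
  have hkt : k * t < 1 := by nlinarith only [hk, hk1, ht, ht1]
  have hkt0 : 0 ≤ k * t := mul_nonneg hk ht.le
  have h2 : Real.cosh (k * t) ≤ 1 / (1 - (k * t) ^ 2 / 2) :=
    (Real.cosh_le_exp_half_sq _).trans
      (Real.exp_bound_div_one_sub_of_interval (by positivity) (by nlinarith only [hkt, hkt0]))
  have hden : 0 < 1 - (k * t) ^ 2 / 2 := by nlinarith only [hkt, hkt0]
  have hcos : 0 < Real.cos t := Real.cos_pos_of_mem_Ioo ⟨by linarith only [ht, Real.pi_pos],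
    by linarith only [ht1, Real.pi_gt_three]⟩
  calc Real.cos t * Real.cosh (k * t) ≤ Real.cos t * (1 / (1 - (k * t) ^ 2 / 2)) :=
        mul_le_mul_of_nonneg_left h2 hcos.le
    _ = Real.cos t / (1 - (k * t) ^ 2 / 2) := by ring
    _ < 1 := by
      rw [div_lt_one hden]
      have h3 : t ^ 2 < 1 - k ^ 2 := by nlinarith only [ht, ht1, ht2]
      have h4 : 0 < t ^ 2 := by positivity
      nlinarith only [h1, h3, h4, mul_pos h4 (sub_pos.2 h3)]

/-- The pointwise inequality. -/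
theorem key_ineq {k w T S a1 a2 : ℝ} (hk : 0 ≤ k) (hw : 0 ≤ w) (hkw : k ^ 2 + w ^ 2 = 1)
    (hT : |T| < 1) (ha1 : 0 ≤ a1) (ha2 : 0 ≤ a2) (h : 1 + S ^ 2 - T ^ 2 ≤ a1 * a2) :
    w * Real.sqrt (1 - T ^ 2) ≤ (a1 + a2) / 2 - k * S := by
  have hT2 : T ^ 2 < 1 := by
    rw [abs_lt] at hT
    nlinarith only [hT.1, hT.2]
  have hs0 : 0 ≤ Real.sqrt (1 - T ^ 2) := Real.sqrt_nonneg _
  have hs2 : Real.sqrt (1 - T ^ 2) ^ 2 = 1 - T ^ 2 := Real.sq_sqrt (by linarith only [hT2])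
  have h1 : (w * Real.sqrt (1 - T ^ 2) + k * |S|) ^ 2 ≤ 1 - T ^ 2 + S ^ 2 := by
    have hS : |S| ^ 2 = S ^ 2 := sq_abs S
    nlinarith only [sq_nonneg (w * |S| - k * Real.sqrt (1 - T ^ 2)), hkw, hs2, hS]
  have h2 : (w * Real.sqrt (1 - T ^ 2) + k * |S|) ^ 2 ≤ ((a1 + a2) / 2) ^ 2 := by
    nlinarith only [h1, h, sq_nonneg (a1 - a2)]
  have h3 : w * Real.sqrt (1 - T ^ 2) + k * |S| ≤ (a1 + a2) / 2 :=
    le_of_sq_le_sq h2 (by positivity)
  have h4 : k * S ≤ k * |S| := mul_le_mul_of_nonneg_left (le_abs_self S) hk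
  linarith only [h3, h4]

end Pool.Agent.H48.FXC
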