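import Pool.Agent.H48.FXC.K3

/-!
# MP_ea41d9_gt: the time needed by a pair of functions, damped oscillator bound
-/

namespace Pool.Agent.H48.FXC

open Set MeasureTheory

/-- A pair of functions on `[0, b]`: `P` from `1` to `-c`, `Q` from `-c` to `1`. -/
structure Osc (P Q : ℝ → ℝ) (b c : ℝ) : Prop where
  bpos : 0 < b
  cpos : 0 < c
  cle : c ≤ 1
  lipP : LipschitzWith 1 P
  lipQ : LipschitzWith 1 Q
  P0 : P 0 = 1
  Pb : P b = -c
  Q0 : Q 0 = -c
  Qb : Q b = 1
  ae : ∀ t ∈ Ioo 0 b, ∀ p q, HasDerivAt P p t → HasDerivAt Q q t →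
    p ≤ 0 ∧ 0 ≤ q ∧ c + P t * Q t ≤ -p * q
  near0 : ∃ δ > 0, ∀ t ∈ Ioo 0 δ, P t ≤ Real.cos t ∧ -c * Real.cos t ≤ Q t
  nearb : ∃ δ > 0, ∀ t ∈ Ioo 0 δ, Q (b - t) ≤ Real.cos t ∧ -c * Real.cos t ≤ P (b - t)

/-- The auxiliary function. -/
noncomputable def TT (P Q : ℝ → ℝ) (c k t : ℝ) : ℝ :=
  (Real.exp (k * t) * P t - Real.exp (-(k * t)) * Q t / c) / 2

variable {P Q : ℝ → ℝ} {b c k w : ℝ}

theorem TT_ac (hP : LipschitzWith 1 P) (hQ : LipschitzWith 1 Q) (x y : ℝ) :
    AbsolutelyContinuousOnInterval (TT P Q c k) x y := by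
  have h1 : AbsolutelyContinuousOnInterval P x y :=
    (hP.lipschitzOnWith (s := uIcc x y)).absolutelyContinuousOnInterval
  have h2 : AbsolutelyContinuousOnInterval Q x y :=
    (hQ.lipschitzOnWith (s := uIcc x y)).absolutelyContinuousOnInterval
  have h3 : AbsolutelyContinuousOnInterval (fun t => Real.exp (k * t)) x y := by
    apply ContDiffOn.absolutelyContinuousOnInterval
    exact ContDiff.contDiffOn (by fun_prop)
  have h4 : AbsolutelyContinuousOnInterval (fun t => Real.exp (-(k * t))) x y := by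
    apply ContDiffOn.absolutelyContinuousOnInterval
    exact ContDiff.contDiffOn (by fun_prop)
  have h5 := ((h3.mul h1).sub ((h4.mul h2).const_mul (1 / c))).const_mul (1 / 2)
  have h6 : TT P Q c k = fun t => 1 / 2 * ((((fun t => Real.exp (k * t)) * P) -
      fun t => 1 / c * ((fun t => Real.exp (-(k * t))) * Q) t) t) := by
    funext t
    simp only [TT, Pi.mul_apply, Pi.sub_apply]
    ring
  rw [h6]
  exact h5

theorem TT_cont (hP : LipschitzWith 1 P) (hQ : LipschitzWith 1 Q) : Continuous (TT P Q c k) := by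
  have h1 := hP.continuous
  have h2 := hQ.continuous
  unfold TT
  fun_prop

theorem TT_deriv {t p q : ℝ} (hp : HasDerivAt P p t) (hq : HasDerivAt Q q t) :
    HasDerivAt (TT P Q c k)
      (-((Real.exp (k * t) * -p + Real.exp (-(k * t)) * q / c) / 2 -
        k * ((Real.exp (k * t) * P t + Real.exp (-(k * t)) * Q t / c) / 2))) t := by
  have h1 : HasDerivAt (fun t => Real.exp (k * t)) (Real.exp (k * t) * (k * 1)) t :=
    ((hasDerivAt_id t).const_mul k).exp
  have h2 : HasDerivAt (fun t => Real.exp (-(k * t))) (Real.exp (-(k * t)) * -(k * 1)) t :=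
    (((hasDerivAt_id t).const_mul k).fun_neg).exp
  have h3 := ((h1.mul hp).sub ((h2.mul hq).div_const c)).div_const 2
  refine HasDerivAt.congr_deriv (h3.congr_of_eventuallyEq ?_) ?_
  · exact Filter.Eventually.of_forall fun s => rfl
  · ring

/-- The differential inequality at points of differentiability. -/
theorem TT_key (hO : Osc P Q b c) (hk : 0 ≤ k) (hw : 0 ≤ w) (hkw : k ^ 2 + w ^ 2 = 1) {t : ℝ}
    (ht : t ∈ Ioo 0 b) (hT : |TT P Q c k t| < 1) {p q : ℝ} (hp : HasDerivAt P p t)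
    (hq : HasDerivAt Q q t) :
    ∃ d, HasDerivAt (TT P Q c k) (-d) t ∧ w * Real.sqrt (1 - TT P Q c k t ^ 2) ≤ d := by
  refine ⟨_, TT_deriv hp hq, ?_⟩
  obtain ⟨h1, h2, h3⟩ := hO.ae t ht p q hp hq
  have hc := hO.cpos
  have hE : 0 < Real.exp (k * t) := Real.exp_pos _
  have hE' : 0 < Real.exp (-(k * t)) := Real.exp_pos _
  have hEE : Real.exp (k * t) * Real.exp (-(k * t)) = 1 := by
    rw [← Real.exp_add, add_neg_cancel, Real.exp_zero]
  apply key_ineq hk hw hkw hT (mul_nonneg hE.le (neg_nonneg.2 h1)) (by positivity)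
  have e1 : Real.exp (k * t) * -p * (Real.exp (-(k * t)) * q / c) = (-p * q) / c := by
    calc Real.exp (k * t) * -p * (Real.exp (-(k * t)) * q / c)
        = (Real.exp (k * t) * Real.exp (-(k * t))) * (-p * q) / c := by ring
      _ = (-p * q) / c := by rw [hEE, one_mul]
  have e2 : ((Real.exp (k * t) * P t + Real.exp (-(k * t)) * Q t / c) / 2) ^ 2 -
      TT P Q c k t ^ 2 = P t * Q t / c := by
    unfold TT
    calc ((Real.exp (k * t) * P t + Real.exp (-(k * t)) * Q t / c) / 2) ^ 2 -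
        ((Real.exp (k * t) * P t - Real.exp (-(k * t)) * Q t / c) / 2) ^ 2
        = (Real.exp (k * t) * Real.exp (-(k * t))) * (P t * Q t) / c := by ring
      _ = P t * Q t / c := by rw [hEE, one_mul]
  rw [e1]
  have e3 : (c + P t * Q t) / c ≤ (-p * q) / c := div_le_div_of_nonneg_right h3 hc.le
  have e4 : (c + P t * Q t) / c = 1 + P t * Q t / c := by
    rw [add_div, div_self hc.ne']
  linarith only [e2, e3, e4]

theorem TT_zero (hO : Osc P Q b c) : TT P Q c k 0 = 1 := by
  unfold TT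
  have hc := hO.cpos
  rw [hO.P0, hO.Q0]
  simp only [mul_zero, neg_zero, Real.exp_zero]
  field_simp
  norm_num

theorem TT_end (hO : Osc P Q b c) (hkb : k * b = -Real.log c) : TT P Q c k b = -1 := by
  unfold TT
  have hc := hO.cpos
  rw [hO.Pb, hO.Qb, hkb, Real.exp_neg, neg_neg, Real.exp_log hc]
  field_simp
  norm_num

theorem TT_near0 (hO : Osc P Q b c) (hk : 0 ≤ k) (hk1 : k < 1) :
    ∃ δ > 0, ∀ t ∈ Ioo 0 δ, TT P Q c k t < 1 := by
  obtain ⟨δ, hδ, h⟩ := hO.near0
  have hk2 : 0 < 1 - k ^ 2 := by nlinarith only [hk, hk1]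
  refine ⟨min δ (min 1 (1 - k ^ 2)), lt_min hδ (lt_min one_pos hk2), fun t ht => ?_⟩
  have h1 := h t ⟨ht.1, ht.2.trans_le (min_le_left _ _)⟩
  have h2 := cosh_cos hk hk1 ht.1
    ((ht.2.trans_le (min_le_right _ _)).trans_le (min_le_left _ _))
    ((ht.2.trans_le (min_le_right _ _)).trans_le (min_le_right _ _))
  have hc := hO.cpos
  have hE : 0 < Real.exp (k * t) := Real.exp_pos _
  have hE' : 0 < Real.exp (-(k * t)) := Real.exp_pos _
  have e1 : Real.exp (k * t) * P t ≤ Real.exp (k * t) * Real.cos t :=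
    mul_le_mul_of_nonneg_left h1.1 hE.le
  have e2 : -(Real.exp (-(k * t)) * Q t / c) ≤ Real.exp (-(k * t)) * Real.cos t := by
    have : -Q t / c ≤ Real.cos t := by
      rw [div_le_iff₀ hc]
      linarith only [h1.2]
    calc -(Real.exp (-(k * t)) * Q t / c) = Real.exp (-(k * t)) * (-Q t / c) := by ring
      _ ≤ Real.exp (-(k * t)) * Real.cos t := mul_le_mul_of_nonneg_left this hE'.le
  rw [Real.cosh_eq] at h2
  unfold TT
  linarith only [e1, e2, h2]

theorem TT_nearb (hO : Osc P Q b c) (hkb : k * b = -Real.log c) (hk : 0 ≤ k) (hk1 : k < 1) :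
    ∃ δ > 0, ∀ t ∈ Ioo 0 δ, -1 < TT P Q c k (b - t) := by
  obtain ⟨δ, hδ, h⟩ := hO.nearb
  have hk2 : 0 < 1 - k ^ 2 := by nlinarith only [hk, hk1]
  refine ⟨min δ (min 1 (1 - k ^ 2)), lt_min hδ (lt_min one_pos hk2), fun t ht => ?_⟩
  have h1 := h t ⟨ht.1, ht.2.trans_le (min_le_left _ _)⟩
  have h2 := cosh_cos hk hk1 ht.1
    ((ht.2.trans_le (min_le_right _ _)).trans_le (min_le_left _ _))
    ((ht.2.trans_le (min_le_right _ _)).trans_le (min_le_right _ _))
  have hc := hO.cpos
  have hE : 0 < Real.exp (k * t) := Real.exp_pos _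
  have hE' : 0 < Real.exp (-(k * t)) := Real.exp_pos _
  have x1 : Real.exp (k * (b - t)) = Real.exp (-(k * t)) / c := by
    rw [mul_sub, hkb, show -Real.log c - k * t = -(k * t) + -Real.log c by ring, Real.exp_add,
      Real.exp_neg (Real.log c), Real.exp_log hc, div_eq_mul_inv]
  have x2 : Real.exp (-(k * (b - t))) = Real.exp (k * t) * c := by
    rw [mul_sub, hkb, show -(-Real.log c - k * t) = k * t + Real.log c by ring, Real.exp_add,
      Real.exp_log hc]
  unfold TT
  rw [x1, x2]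
  have e1 : -(Real.exp (-(k * t)) * Real.cos t) ≤ Real.exp (-(k * t)) / c * P (b - t) := by
    have : -Real.cos t ≤ P (b - t) / c := by
      rw [le_div_iff₀ hc]
      linarith only [h1.2]
    calc -(Real.exp (-(k * t)) * Real.cos t) = Real.exp (-(k * t)) * -Real.cos t := by ring
      _ ≤ Real.exp (-(k * t)) * (P (b - t) / c) := mul_le_mul_of_nonneg_left this hE'.le
      _ = Real.exp (-(k * t)) / c * P (b - t) := by ring
  have e2 : Real.exp (k * t) * c * Q (b - t) / c ≤ Real.exp (k * t) * Real.cos t := by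
    calc Real.exp (k * t) * c * Q (b - t) / c = Real.exp (k * t) * Q (b - t) := by
          field_simp
      _ ≤ Real.exp (k * t) * Real.cos t := mul_le_mul_of_nonneg_left h1.1 hE.le
  rw [Real.cosh_eq] at h2
  linarith only [e1, e2, h2]

end Pool.Agent.H48.FXC
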