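import Pool.Agent.H48.FXC.K4

/-!
# MP_ea41d9_gt: the damped oscillator bound
-/

namespace Pool.Agent.H48.FXC

open Set MeasureTheory

variable {P Q : ℝ → ℝ} {b c k w : ℝ}

theorem TT_anti (hO : Osc P Q b c) (hk : 0 ≤ k) (hw : 0 ≤ w) (hkw : k ^ 2 + w ^ 2 = 1)
    {x y : ℝ} (hx : 0 ≤ x) (hxy : x ≤ y) (hy : y ≤ b)
    (hT : ∀ t ∈ Ioo x y, |TT P Q c k t| < 1) : TT P Q c k y ≤ TT P Q c k x := by
  have h := ac_lower (C := 0) hxy (TT_ac (c := c) (k := k) hO.lipP hO.lipQ x y).neg (by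
    filter_upwards [hO.lipP.ae_differentiableAt (μ := volume),
      hO.lipQ.ae_differentiableAt (μ := volume)] with t h1 h2 ht
    obtain ⟨d, hd, hd'⟩ := TT_key hO hk hw hkw ⟨hx.trans_lt ht.1, ht.2.trans_le hy⟩ (hT t ht)
      h1.hasDerivAt h2.hasDerivAt
    have h3 : deriv (-TT P Q c k) t = d := by
      have := hd.neg.deriv
      rwa [neg_neg] at this
    rw [h3]
    exact (mul_nonneg hw (Real.sqrt_nonneg _)).trans hd')
  simp only [Pi.neg_apply] at h
  linarith only [h]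

theorem TT_lt_one (hO : Osc P Q b c) (hkb : k * b = -Real.log c) (hk : 0 ≤ k) (hk1 : k < 1)
    (hw : 0 ≤ w) (hkw : k ^ 2 + w ^ 2 = 1) : ∀ t ∈ Ioo 0 b, |TT P Q c k t| < 1 := by
  have hcont : Continuous (TT P Q c k) := TT_cont hO.lipP hO.lipQ
  have hb := hO.bpos
  obtain ⟨δ0, hδ0, h0⟩ := TT_near0 hO hk hk1
  obtain ⟨δ1, hδ1, h1⟩ := TT_nearb hO hkb hk hk1
  have hT0 := TT_zero (k := k) hO
  have hTb := TT_end hO hkb
  -- near `0` the values are bigger than `-1`
  obtain ⟨δ2, hδ2, h2⟩ : ∃ δ > 0, ∀ t, |t| < δ → -1 < TT P Q c k t := by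
    have hopen : IsOpen {t | -1 < TT P Q c k t} := isOpen_lt continuous_const hcont
    obtain ⟨δ, hδ, hball⟩ := Metric.isOpen_iff.1 hopen 0 (by
      rw [mem_ofPred_eq, hT0]
      norm_num)
    exact ⟨δ, hδ, fun t ht => hball (by simpa [Real.dist_eq] using ht)⟩
  obtain ⟨e, he, hed⟩ : ∃ e : ℝ, 0 < e ∧ e < min (min δ0 δ2) b :=
    exists_between (lt_min (lt_min hδ0 hδ2) hb)
  have he0 : e < δ0 := hed.trans_le ((min_le_left _ _).trans (min_le_left _ _))
  have he2 : e < δ2 := hed.trans_le ((min_le_left _ _).trans (min_le_right _ _))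
  have heb : e < b := hed.trans_le (min_le_right _ _)
  have hsmall : ∀ t ∈ Ioc 0 e, |TT P Q c k t| < 1 := fun t ht => by
    rw [abs_lt]
    exact ⟨h2 t (by rw [abs_of_pos ht.1]; exact ht.2.trans_lt he2),
      h0 t ⟨ht.1, ht.2.trans_lt he0⟩⟩
  have hBc : IsCompact {t | t ∈ Icc e b ∧ 1 ≤ |TT P Q c k t|} := by
    apply (isCompact_Icc (a := e) (b := b)).inter_right
    exact isClosed_le continuous_const hcont.abs
  have hBn : {t | t ∈ Icc e b ∧ 1 ≤ |TT P Q c k t|}.Nonempty := by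
    refine ⟨b, ⟨heb.le, le_refl _⟩, ?_⟩
    rw [hTb]
    norm_num
  obtain ⟨t1, ht1, ht1le⟩ := hBc.exists_isLeast hBn
  have hlt : ∀ t ∈ Ioo 0 t1, |TT P Q c k t| < 1 := by
    intro t ht
    rcases le_or_gt t e with h | h
    · exact hsmall t ⟨ht.1, h⟩
    · by_contra hc
      have := ht1le (show t ∈ {t | t ∈ Icc e b ∧ 1 ≤ |TT P Q c k t|} from
        ⟨⟨h.le, ht.2.le.trans ht1.1.2⟩, le_of_not_gt hc⟩)
      exact absurd this (not_le.2 ht.2)
  have het1 : e < t1 := by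
    refine lt_of_le_of_ne ht1.1.1 (fun h => ?_)
    have := hsmall e ⟨he, le_refl _⟩
    rw [h] at this
    exact absurd this (not_lt.2 ht1.2)
  have hTt1 : TT P Q c k t1 ≤ -1 := by
    have h3 := TT_anti hO hk hw hkw he.le het1.le ht1.1.2
      (fun t ht => hlt t ⟨he.trans ht.1, ht.2⟩)
    have h4 := (abs_lt.1 (hsmall e ⟨he, le_refl _⟩)).2
    by_contra hc
    have h5 : |TT P Q c k t1| < 1 := abs_lt.2 ⟨lt_of_not_ge hc, h3.trans_lt h4⟩
    exact absurd h5 (not_lt.2 ht1.2)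
  rcases eq_or_lt_of_le ht1.1.2 with h | h
  · rw [← h]
    exact hlt
  · exfalso
    -- the last point below `b` with value at most `-1`
    obtain ⟨e1, he1, he1d⟩ : ∃ e1 : ℝ, 0 < e1 ∧ e1 < min δ1 (b - t1) :=
      exists_between (lt_min hδ1 (sub_pos.2 h))
    have he1δ : e1 < δ1 := he1d.trans_le (min_le_left _ _)
    have he1b : e1 < b - t1 := he1d.trans_le (min_le_right _ _)
    have hCc : IsCompact {t | t ∈ Icc t1 (b - e1) ∧ TT P Q c k t ≤ -1} := by
      apply (isCompact_Icc (a := t1) (b := b - e1)).inter_right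
      exact isClosed_le hcont continuous_const
    obtain ⟨t2, ht2, ht2ge⟩ := hCc.exists_isGreatest
      ⟨t1, ⟨le_refl _, by linarith only [he1b]⟩, hTt1⟩
    have hgt : ∀ t ∈ Ioo t2 b, -1 < TT P Q c k t := by
      intro t ht
      rcases lt_or_ge (b - t) δ1 with h3 | h3
      · have := h1 (b - t) ⟨sub_pos.2 ht.2, h3⟩
        rwa [sub_sub_cancel] at this
      · by_contra hc
        have := ht2ge (show t ∈ {t | t ∈ Icc t1 (b - e1) ∧ TT P Q c k t ≤ -1} from
          ⟨⟨ht2.1.1.trans ht.1.le, by linarith only [h3, he1δ]⟩, le_of_not_gt hc⟩)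
        exact absurd this (not_le.2 ht.1)
    have ht2b : t2 < b := by linarith only [ht2.1.2, he1]
    obtain ⟨δ3, hδ3, h3⟩ : ∃ δ > 0, ∀ t, |t - t2| < δ → TT P Q c k t < 1 := by
      have hopen : IsOpen {t | TT P Q c k t < 1} := isOpen_lt hcont continuous_const
      obtain ⟨δ, hδ, hball⟩ := Metric.isOpen_iff.1 hopen t2 (by
        rw [mem_ofPred_eq]
        linarith only [ht2.2])
      exact ⟨δ, hδ, fun t ht => hball (by simpa [Real.dist_eq] using ht)⟩
    obtain ⟨e2, he2', he2d⟩ : ∃ e2 : ℝ, 0 < e2 ∧ e2 < min δ3 (b - t2) :=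
      exists_between (lt_min hδ3 (sub_pos.2 ht2b))
    have he23 : e2 < δ3 := he2d.trans_le (min_le_left _ _)
    have he2b : e2 < b - t2 := he2d.trans_le (min_le_right _ _)
    have h4 := TT_anti hO hk hw hkw (x := t2) (y := t2 + e2)
      (he.le.trans (het1.le.trans ht2.1.1)) (by linarith only [he2']) (by linarith only [he2b])
      (fun t ht => abs_lt.2 ⟨hgt t ⟨ht.1, by linarith only [ht.2, he2b]⟩,
        h3 t (by
          rw [abs_lt]
          exact ⟨by linarith only [ht.1, hδ3], by linarith only [ht.2, he23]⟩)⟩)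
    have h5 := hgt (t2 + e2) ⟨by linarith only [he2'], by linarith only [he2b]⟩
    linarith only [h4, h5, ht2.2]

theorem arccos_growth (hO : Osc P Q b c) (hk : 0 ≤ k) (hw : 0 ≤ w) (hkw : k ^ 2 + w ^ 2 = 1)
    (hT : ∀ t ∈ Ioo 0 b, |TT P Q c k t| < 1) {x y : ℝ} (hx : 0 < x) (hxy : x ≤ y) (hy : y < b) :
    w * (y - x) ≤ Real.arccos (TT P Q c k y) - Real.arccos (TT P Q c k x) := by
  have hcont : Continuous (TT P Q c k) := TT_cont hO.lipP hO.lipQ
  obtain ⟨z, hz, hmax⟩ := (isCompact_Icc (a := x) (b := y)).exists_isMaxOn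
    ⟨x, le_refl _, hxy⟩ hcont.abs.continuousOn
  have hr1 : |TT P Q c k z| < 1 := hT z ⟨hx.trans_le hz.1, hz.2.trans_lt hy⟩
  have hle : ∀ t ∈ Icc x y, |TT P Q c k t| ≤ |TT P Q c k z| := fun t ht => hmax ht
  have hsub : Icc (-|TT P Q c k z|) |TT P Q c k z| ⊆ ({-1, 1} : Set ℝ)ᶜ := by
    intro t ht hmem
    rcases hmem with h | h
    · rw [h] at ht
      linarith only [ht.1, hr1]
    · rw [mem_singleton_iff] at h
      rw [h] at ht
      linarith only [ht.2, hr1]
  obtain ⟨C, hC⟩ := ((Real.contDiffOn_arccos (n := 1)).mono hsub).exists_lipschitzOnWith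
    (by decide) (convex_Icc _ _) isCompact_Icc
  apply ac_lower hxy (f := fun t => Real.arccos (TT P Q c k t))
  · apply ac_comp hC _ (TT_ac hO.lipP hO.lipQ x y)
    intro t ht
    rw [uIcc_of_le hxy] at ht
    exact abs_le.1 (hle t ht)
  · filter_upwards [hO.lipP.ae_differentiableAt (μ := volume),
      hO.lipQ.ae_differentiableAt (μ := volume)] with t h1 h2 ht
    have ht' : t ∈ Ioo 0 b := ⟨hx.trans ht.1, ht.2.trans hy⟩
    have hTt := hT t ht'
    obtain ⟨d, hd, hd'⟩ := TT_key hO hk hw hkw ht' hTt h1.hasDerivAt h2.hasDerivAt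
    have hTt' := abs_lt.1 hTt
    have h3 : HasDerivAt (fun t => Real.arccos (TT P Q c k t))
        (-(1 / Real.sqrt (1 - TT P Q c k t ^ 2)) * -d) t :=
      (Real.hasDerivAt_arccos hTt'.1.ne' hTt'.2.ne).comp t hd
    rw [h3.deriv]
    have hpos : 0 < Real.sqrt (1 - TT P Q c k t ^ 2) := by
      apply Real.sqrt_pos.2
      nlinarith only [hTt'.1, hTt'.2]
    rw [neg_mul_neg, one_div, inv_mul_eq_div, le_div_iff₀ hpos]
    exact hd'

/-- The damped oscillator bound for one arc. -/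
theorem Osc.bound (hO : Osc P Q b c) : b ^ 2 ≤ Real.pi ^ 2 + Real.log c ^ 2 := by
  have hb := hO.bpos
  have hc := hO.cpos
  have hlog : Real.log c ≤ 0 := Real.log_nonpos hc.le hO.cle
  have hpi := Real.pi_pos
  obtain ⟨k, hkdef⟩ : ∃ k, k = -Real.log c / b := ⟨_, rfl⟩
  have hk : 0 ≤ k := by
    rw [hkdef]
    exact div_nonneg (neg_nonneg.2 hlog) hb.le
  have hkb : k * b = -Real.log c := by
    rw [hkdef, div_mul_cancel₀ _ hb.ne']
  rcases le_or_gt 1 k with h1 | h1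
  · have h2 : b ≤ -Real.log c := by
      rw [← hkb]
      nlinarith only [h1, hb]
    nlinarith only [h2, hb, sq_nonneg Real.pi, hlog]
  · have hw2 : 0 ≤ 1 - k ^ 2 := by nlinarith only [hk, h1]
    obtain ⟨w, hwdef⟩ : ∃ w, w = Real.sqrt (1 - k ^ 2) := ⟨_, rfl⟩
    have hw : 0 ≤ w := hwdef ▸ Real.sqrt_nonneg _
    have hwsq : w ^ 2 = 1 - k ^ 2 := by
      rw [hwdef]
      exact Real.sq_sqrt hw2
    have hkw : k ^ 2 + w ^ 2 = 1 := by linarith only [hwsq]
    have hT := TT_lt_one hO hkb hk h1 hw hkw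
    have hmain : w * b ≤ Real.pi := by
      apply le_of_forall_pos_le_add
      intro e he
      have hw1 : w ≤ 1 := by nlinarith only [hwsq, hw, sq_nonneg k]
      obtain ⟨x, hx, hxd⟩ : ∃ x : ℝ, 0 < x ∧ x < min (e / 2) (b / 2) :=
        exists_between (lt_min (half_pos he) (half_pos hb))
      have hx1 : x < e / 2 := hxd.trans_le (min_le_left _ _)
      have hx2 : x < b / 2 := hxd.trans_le (min_le_right _ _)
      have h3 := arccos_growth hO hk hw hkw hT (x := x) (y := b - x) hx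
        (by linarith only [hx2]) (by linarith only [hx])
      have h4 := Real.arccos_le_pi (TT P Q c k (b - x))
      have h5 := Real.arccos_nonneg (TT P Q c k x)
      nlinarith only [h3, h4, h5, hw1, hw, hx, hx1]
    have h6 : (w * b) ^ 2 ≤ Real.pi ^ 2 :=
      pow_le_pow_left₀ (mul_nonneg hw hb.le) hmain 2
    have h7 : (k * b) ^ 2 = Real.log c ^ 2 := by rw [hkb]; ring
    have h8 : b ^ 2 = (w * b) ^ 2 + (k * b) ^ 2 := by
      calc b ^ 2 = (k ^ 2 + w ^ 2) * b ^ 2 := by rw [hkw, one_mul]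
        _ = (w * b) ^ 2 + (k * b) ^ 2 := by ring
    linarith only [h6, h7, h8]

end Pool.Agent.H48.FXC
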