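import Pool.Agent.H48.FXC.K2
import Pool.Agent.H48.FXC.K5

/-!
# MP_ea41d9_gt: the bound of the length by the diameter
-/

namespace Pool.Agent.H48.FXC

open Set

variable {K m : ℝ → ℝ → ℝ} {L ε : ℝ}

theorem nonpos_of_small {C a δ : ℝ} (hδ : 0 < δ)
    (h : ∀ x, 0 < x → x < δ → a * Real.sin x ≤ C * (1 - Real.cos x)) : a ≤ 0 := by
  by_contra ha
  have ha' : 0 < a := lt_of_not_ge ha
  have hC : 0 < |C| + 1 := by positivity
  obtain ⟨x, hx, hxd⟩ : ∃ x : ℝ, 0 < x ∧ x < min (min δ 1) (a / (|C| + 1)) :=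
    exists_between (lt_min (lt_min hδ one_pos) (div_pos ha' hC))
  have h1 : x < δ := hxd.trans_le ((min_le_left _ _).trans (min_le_left _ _))
  have h2 : x < 1 := hxd.trans_le ((min_le_left _ _).trans (min_le_right _ _))
  have h3 : x < a / (|C| + 1) := hxd.trans_le (min_le_right _ _)
  rw [lt_div_iff₀ hC] at h3
  have h4 := h x hx h1
  have h5 : x - x ^ 3 / 6 < Real.sin x := Real.sin_gt_sub_cube hx
  have h6 : 1 - x ^ 2 / 2 ≤ Real.cos x := Real.one_sub_sq_div_two_le_cos
  have h7 : C * (1 - Real.cos x) ≤ |C| * (x ^ 2 / 2) := by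
    have h8 : 0 ≤ 1 - Real.cos x := sub_nonneg.2 (Real.cos_le_one x)
    calc C * (1 - Real.cos x) ≤ |C| * (1 - Real.cos x) :=
          mul_le_mul_of_nonneg_right (le_abs_self C) h8
      _ ≤ |C| * (x ^ 2 / 2) := mul_le_mul_of_nonneg_left (by linarith only [h6]) (abs_nonneg C)
  have h8 : x / 2 < Real.sin x := by
    have hx2 : x ^ 2 < 1 := by nlinarith only [hx, h2]
    have hx3 : x ^ 3 < x := by
      calc x ^ 3 = x ^ 2 * x := by ring
        _ < 1 * x := mul_lt_mul_of_pos_right hx2 hx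
        _ = x := one_mul x
    linarith only [h5, hx3, hx]
  have h9 : a * (x / 2) < |C| * (x ^ 2 / 2) :=
    (mul_lt_mul_of_pos_left h8 ha').trans_le (h4.trans h7)
  nlinarith only [h9, h3, hx, abs_nonneg C]

/-- At a point of differentiability `m` is the derivative. -/
theorem Ker.m_eq_deriv (hK : Ker K m L ε) {x z p : ℝ} (hp : HasDerivAt (K x) p z) :
    p = m z x := by
  have h1 : HasDerivAt (fun h => K x (z + h)) p 0 := by
    have : HasDerivAt (fun h => z + h) 1 0 := (hasDerivAt_id (0 : ℝ)).const_add z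
    have h2 : HasDerivAt (K x) p (z + 0) := by rwa [add_zero]
    have h3 := h2.comp (0 : ℝ) this
    rw [mul_one] at h3
    exact h3
  have h2 : HasDerivAt (fun h => K x (z + h) - (K x z * Real.cos h + m z x * Real.sin h))
      (p - (K x z * -Real.sin 0 + m z x * Real.cos 0)) 0 :=
    h1.sub (((Real.hasDerivAt_cos 0).const_mul _).add ((Real.hasDerivAt_sin 0).const_mul _))
  have hm : IsLocalMin (fun h => K x (z + h) - (K x z * Real.cos h + m z x * Real.sin h)) 0 := by
    have : ∀ᶠ y in nhds (0 : ℝ), |y| < ε := by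
      have := Metric.ball_mem_nhds (0 : ℝ) hK.epos
      filter_upwards [this] with y hy
      simpa [Real.dist_eq] using hy
    filter_upwards [this] with y hy
    have := hK.supp x z y hy.le
    simp only [add_zero, Real.cos_zero, mul_one, Real.sin_zero, mul_zero, sub_self]
    linarith only [this]
  have h0 := hm.hasDerivAt_eq_zero h2
  simp only [Real.sin_zero, neg_zero, mul_zero, Real.cos_zero, mul_one, zero_add] at h0
  linarith only [h0]

theorem Ker.m_nonpos (hK : Ker K m L ε) {b : ℝ} (hbL : b < L)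
    (hmin : ∀ s t, K 0 b ≤ K s t) (hneg : K 0 b < 0) {t : ℝ} (ht : t ∈ Ioo 0 b) :
    m t 0 ≤ 0 := by
  have hanti := hK.anti hbL hmin hneg
  apply nonpos_of_small (C := K 0 t) (lt_min hK.epos (sub_pos.2 ht.2))
  intro x hx hxd
  have h1 := hK.supp 0 t x (by rw [abs_of_pos hx]; exact (hxd.trans_le (min_le_left _ _)).le)
  have h2 := hanti (a := t) ⟨ht.1.le, ht.2.le⟩ (b := t + x) ⟨by linarith only [ht.1, hx],
    by linarith only [hxd.trans_le (min_le_right _ _)]⟩ (by linarith only [hx])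
  linarith only [h1, h2]

theorem Ker.m_nonneg (hK : Ker K m L ε) {b : ℝ} (hbL : b < L)
    (hmin : ∀ s t, K 0 b ≤ K s t) (hneg : K 0 b < 0) {t : ℝ} (ht : t ∈ Ioo 0 b) :
    0 ≤ m t b := by
  have hmono := hK.mono hbL hmin hneg
  have h : -m t b ≤ 0 := by
    apply nonpos_of_small (C := K b t) (lt_min hK.epos ht.1)
    intro x hx hxd
    have h1 := hK.supp b t (-x) (by
      rw [abs_neg, abs_of_pos hx]
      exact (hxd.trans_le (min_le_left _ _)).le)
    rw [Real.cos_neg, Real.sin_neg] at h1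
    have h2 := hmono (a := t + -x) ⟨by linarith only [hxd.trans_le (min_le_right ε t)],
      by linarith only [ht.2, hx]⟩ (b := t) ⟨ht.1.le, ht.2.le⟩ (by linarith only [hx])
    linarith only [h1, h2]
  linarith only [h]

theorem Ker.near0 (hK : Ker K m L ε) {b : ℝ} (hb : 0 < b) (hbL : b < L)
    (hmin : ∀ s t, K 0 b ≤ K s t) (hneg : K 0 b < 0) :
    ∃ δ > 0, ∀ t ∈ Ioo 0 δ, K 0 t ≤ Real.cos t ∧ K 0 b * Real.cos t ≤ K b t := by
  refine ⟨min ε (min b 1), lt_min hK.epos (lt_min hb one_pos), fun t ht => ?_⟩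
  have ht1 : t < ε := ht.2.trans_le (min_le_left _ _)
  have ht2 : t < b := (ht.2.trans_le (min_le_right _ _)).trans_le (min_le_left _ _)
  have ht3 : t < 1 := (ht.2.trans_le (min_le_right _ _)).trans_le (min_le_right _ _)
  have ht0 : 0 < t := ht.1
  have hloc0 : K 0 t = Real.cos t := by
    rw [hK.loc 0 t (by rw [zero_sub, abs_neg, abs_of_pos ht0]; exact ht1.le), zero_sub,
      Real.cos_neg]
  refine ⟨hloc0.le, ?_⟩
  have hstep : ∀ z ∈ Ioo 0 t, Real.cos (t - z) * K b z ≤ K b t := by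
    intro z hz
    have hz0 : 0 < z := hz.1
    have htz : 0 < t - z := sub_pos.2 hz.2
    have h1 := hK.hinge t b z
    have h2 : K t z = Real.cos (t - z) := hK.loc t z (by
      rw [abs_of_pos htz]
      linarith only [hz0, ht1])
    have h3 : 0 ≤ m z b := hK.m_nonneg hbL hmin hneg ⟨hz0, hz.2.trans ht2⟩
    have hsz : 0 < Real.sin z := Real.sin_pos_of_pos_of_lt_pi hz0
      (by linarith only [hz.2, ht3, Real.pi_gt_three])
    have hstz : 0 < Real.sin (t - z) := Real.sin_pos_of_pos_of_lt_pi htz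
      (by linarith only [hz0, ht3, Real.pi_gt_three])
    have h4 : Real.sin (t - z) ≤ m z t := by
      have h5 := hK.supp t z (-z) (by
        rw [abs_neg, abs_of_pos hz0]
        linarith only [hz.2, ht1])
      rw [add_neg_cancel, hK.symm t 0, hloc0, h2, Real.cos_neg, Real.sin_neg] at h5
      have h6 : Real.cos t = Real.cos (t - z) * Real.cos z - Real.sin (t - z) * Real.sin z := by
        rw [← Real.cos_add, sub_add_cancel]
      rw [h6] at h5
      have h7 : Real.sin (t - z) * Real.sin z ≤ m z t * Real.sin z := by linarith only [h5]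
      exact le_of_mul_le_mul_right h7 hsz
    rw [h2, hK.symm t b] at h1
    nlinarith only [h1, mul_nonneg (hstz.le.trans h4) h3]
  have hclosed : IsClosed {z | Real.cos (t - z) * K b z ≤ K b t} := by
    have := hK.cont b
    exact isClosed_le (by fun_prop) continuous_const
  have hsub : Icc 0 t ⊆ {z | Real.cos (t - z) * K b z ≤ K b t} := by
    rw [← closure_Ioo ht0.ne]
    exact hclosed.closure_subset_iff.2 hstep
  have h0 := hsub (left_mem_Icc.2 ht0.le)
  rw [mem_ofPred_eq, sub_zero, hK.symm b 0] at h0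
  linarith only [h0]

theorem Ker.osc (hK : Ker K m L ε) {b : ℝ} (hb : 0 < b) (hbL : b < L)
    (hmin : ∀ s t, K 0 b ≤ K s t) (hneg : K 0 b < 0) : Osc (K 0) (K b) b (-K 0 b) where
  bpos := hb
  cpos := neg_pos.2 hneg
  cle := by linarith only [hK.neg_one_le 0 b]
  lipP := LipschitzWith.of_dist_le_mul fun t t' => by
    rw [Real.dist_eq, Real.dist_eq]
    simpa using hK.lip 0 t t'
  lipQ := LipschitzWith.of_dist_le_mul fun t t' => by
    rw [Real.dist_eq, Real.dist_eq]
    simpa using hK.lip b t t'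
  P0 := hK.diag 0
  Pb := (neg_neg _).symm
  Q0 := by rw [neg_neg, hK.symm]
  Qb := hK.diag b
  ae := fun t ht p q hp hq => by
    rw [hK.m_eq_deriv hp, hK.m_eq_deriv hq]
    refine ⟨hK.m_nonpos hbL hmin hneg ht, hK.m_nonneg hbL hmin hneg ht, ?_⟩
    have := hK.hinge 0 b t
    linarith only [this]
  near0 := by
    obtain ⟨δ, hδ, h⟩ := hK.near0 hb hbL hmin hneg
    exact ⟨δ, hδ, fun t ht => by
      rw [neg_neg]
      exact h t ht⟩
  nearb := by
    have hmin' : ∀ s t, K (b - 0) (b - b) ≤ K (b - s) (b - t) := fun s t => by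
      rw [sub_zero, sub_self, hK.symm b 0]
      exact hmin _ _
    have hneg' : K (b - 0) (b - b) < 0 := by
      rw [sub_zero, sub_self, hK.symm b 0]
      exact hneg
    obtain ⟨δ, hδ, h⟩ := (hK.refl b).near0 hb hbL hmin' hneg'
    refine ⟨δ, hδ, fun t ht => ?_⟩
    have h1 := h t ht
    simp only [sub_zero, sub_self] at h1
    rw [neg_neg]
    rw [hK.symm b 0] at h1
    exact h1

/-- One arc. -/
theorem Ker.arc (hK : Ker K m L ε) {b : ℝ} (hb : 0 < b) (hbL : b < L)
    (hmin : ∀ s t, K 0 b ≤ K s t) (hneg : K 0 b < 0) :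
    b ≤ Real.sqrt (Real.pi ^ 2 + Real.log (-K 0 b) ^ 2) :=
  Real.le_sqrt_of_sq_le (hK.osc hb hbL hmin hneg).bound

/-- The whole circle. -/
theorem Ker.bound_one (hK : Ker K m L ε) {b : ℝ} (hb : 0 < b) (hbL : b < L)
    (hmin : ∀ s t, K 0 b ≤ K s t) (hneg : K 0 b < 0) :
    L ≤ 2 * Real.sqrt (Real.pi ^ 2 + Real.log (-K 0 b) ^ 2) := by
  have h1 := hK.arc hb hbL hmin hneg
  have hval : K (-0) (-(L - b)) = K 0 b := by
    have := hK.per 0 (-(L - b))
    rw [show -(L - b) + L = b by ring] at this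
    rw [neg_zero, this]
  have h2 := hK.neg.arc (b := L - b) (sub_pos.2 hbL) (by linarith only [hb])
    (fun s t => by
      rw [hval]
      exact hmin _ _) (by rw [hval]; exact hneg)
  rw [hval] at h2
  linarith only [h1, h2]

end Pool.Agent.H48.FXC
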